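import Mathlib
import Pool.Agent.V1114.Lamp

/-!
# The restricted action monoid need not be finitely generated (negative answer to Q2)
-/

namespace Pool.Agent.Results.MP_af3a77_al.ActMonoidNotFG

open Pool.Agent.V1114.Lamp

/-- An object of setting (A): a homomorphism from `G` to the symmetric group of a finite set. -/
structure FinAct (G : Type) [Group G] where
  /-- the finite set -/
  X : Type
  [fin : Finite X]
  /-- the homomorphism to the symmetric group -/
  hom : G →* Equiv.Perm X

/-- The point `φ(g) x`. -/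
def FinAct.app {G : Type} [Group G] (φ : FinAct G) (g : G) (x : φ.X) : φ.X := φ.hom g x

/-- The disjoint union over `j` of `n j` copies of the set of `ψ j`. -/
def Union {G : Type} [Group G] {m : ℕ} (n : Fin m → ℕ) (ψ : Fin m → FinAct G) : Type :=
  (j : Fin m) × (Fin (n j) × (ψ j).X)

/-- The action of `g` on the disjoint union. -/
def Union.app {G : Type} [Group G] {m : ℕ} {n : Fin m → ℕ} {ψ : Fin m → FinAct G} (g : G)
    (x : Union n ψ) : Union n ψ :=
  ⟨x.1, x.2.1, (ψ x.1).app g x.2.2⟩

/-- The restriction of `φ` to `H` is isomorphic to the disjoint union over `j` of `n j` copies of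
the restriction of `ψ j` to `H`. -/
def IsSum {G : Type} [Group G] (H : Subgroup G) {m : ℕ} (n : Fin m → ℕ) (ψ : Fin m → FinAct G)
    (φ : FinAct G) : Prop :=
  ∃ e : φ.X → Union n ψ, Function.Bijective e ∧ ∀ h ∈ H, ∀ x, e (φ.app h x) = (e x).app h

/-- The restrictions to `H` of the actions `ψ 0, …, ψ (m - 1)` of `G` generate the monoid of all
restrictions to `H` of actions of `G` on finite sets. -/
def Generates {G : Type} [Group G] (H : Subgroup G) {m : ℕ} (ψ : Fin m → FinAct G) : Prop :=
  ∀ φ : FinAct G, ∃ n : Fin m → ℕ, IsSum H n ψ φ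

/-- Negative answer to Q2: there are a finitely generated group `G` and a finite subgroup `H` such
that the monoid of restrictions to `H` of actions of `G` on finite sets is not finitely
generated. -/
theorem result : ∃ (G : Type) (_ : Group G) (H : Subgroup G), Group.FG G ∧ Finite H ∧
    ∀ (m : ℕ) (ψ : Fin m → FinAct G), ¬ Generates H ψ := by
  refine ⟨LG, inferInstance, H, fg_LG, finite_H, ?_⟩
  intro m ψ hψ
  have : ∀ j, Finite (ψ j).X := fun j => (ψ j).fin
  obtain ⟨N, hN, hcore⟩ := core (fun j => funRep (ψ j).hom)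
  have : NeZero N := ⟨hN⟩
  obtain ⟨n, e', hbij, he⟩ := hψ ⟨XN N, act N⟩
  let e : XN N ≃ ((j : Fin m) × (Fin (n j) × (ψ j).X)) := Equiv.ofBijective e' hbij
  have he' : ∀ h ∈ H, ∀ x, e (act N h x) = ⟨(e x).1, (e x).2.1, (ψ (e x).1).hom h (e x).2.2⟩ :=
    fun h hh x => he h hh x
  let E : (XN N → ℂ) ≃ₗ[ℂ] ((j : Fin m) → Fin (n j) → ((ψ j).X → ℂ)) :=
    { toFun := fun f j k y => f (e.symm ⟨j, k, y⟩)
      invFun := fun F x => F (e x).1 (e x).2.1 (e x).2.2
      map_add' := fun f g => rfl
      map_smul' := fun c f => rfl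
      left_inv := fun f => by
        funext x
        show f (e.symm (e x)) = f x
        rw [Equiv.symm_apply_apply]
      right_inv := fun F => by
        funext j k y
        show F (e (e.symm ⟨j, k, y⟩)).1 (e (e.symm ⟨j, k, y⟩)).2.1 (e (e.symm ⟨j, k, y⟩)).2.2
          = F j k y
        rw [Equiv.apply_symm_apply] }
  refine hcore n E ?_
  intro h hh f j k
  funext y
  show f ((act N h)⁻¹ (e.symm ⟨j, k, y⟩)) = f (e.symm ⟨j, k, ((ψ j).hom h)⁻¹ y⟩)
  congr 1
  rw [Equiv.Perm.inv_eq_iff_eq]
  apply e.injective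
  rw [Equiv.apply_symm_apply, he' h hh, Equiv.apply_symm_apply]
  show (⟨j, k, y⟩ : (j : Fin m) × (Fin (n j) × (ψ j).X))
    = ⟨j, k, (ψ j).hom h (((ψ j).hom h)⁻¹ y)⟩
  rw [show (ψ j).hom h (((ψ j).hom h)⁻¹ y) = y from Equiv.apply_symm_apply _ _]

end Pool.Agent.Results.MP_af3a77_al.ActMonoidNotFG
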