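import Mathlib
import Pool.Agent.V1114.Lamp

/-!
# The restricted representation monoid need not be finitely generated (negative answer to Q1)
-/

namespace Pool.Agent.Results.MP_af3a77_al.RepMonoidNotFG

open Pool.Agent.V1114.Lamp

/-- An object of setting (R): a homomorphism from `G` to the unitary group of a
finite-dimensional complex Hilbert space. -/
structure URep (G : Type) [Group G] where
  /-- the Hilbert space -/
  X : Type
  [normed : NormedAddCommGroup X]
  [inner : InnerProductSpace ℂ X]
  [findim : FiniteDimensional ℂ X]
  /-- the homomorphism to the group of unitary operators -/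
  hom : G →* (X ≃ₗᵢ[ℂ] X)

attribute [instance] URep.normed URep.inner URep.findim

/-- The vector `φ(g) v`. -/
def URep.app {G : Type} [Group G] (φ : URep G) (g : G) (v : φ.X) : φ.X := φ.hom g v

/-- The linear map `E` intertwines the restrictions of `φ` and `ψ` to the subgroup `H`. -/
def Intertwines {G : Type} [Group G] (H : Subgroup G) (φ ψ : URep G) (E : φ.X →ₗ[ℂ] ψ.X) :
    Prop :=
  ∀ h ∈ H, ∀ v : φ.X, E (φ.app h v) = ψ.app h (E v)

/-- The restriction of `φ` to `H` is isomorphic to the direct sum over `j` of `n j` copies of the
restriction of `ψ j` to `H`: there are linear maps `E j k : φ.X → (ψ j).X` for `k < n j`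
intertwining the `H`-actions which together form a bijection onto the product. -/
def IsSum {G : Type} [Group G] (H : Subgroup G) {m : ℕ} (n : Fin m → ℕ) (ψ : Fin m → URep G)
    (φ : URep G) : Prop :=
  ∃ E : (j : Fin m) → Fin (n j) → (φ.X →ₗ[ℂ] (ψ j).X),
    (∀ j k, Intertwines H φ (ψ j) (E j k)) ∧
      Function.Bijective (fun (v : φ.X) (j : Fin m) (k : Fin (n j)) => E j k v)

/-- The restrictions to `H` of the representations `ψ 0, …, ψ (m - 1)` of `G` generate the
monoid of all restrictions to `H` of finite-dimensional unitary representations of `G`. -/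
def Generates {G : Type} [Group G] (H : Subgroup G) {m : ℕ} (ψ : Fin m → URep G) : Prop :=
  ∀ φ : URep G, ∃ n : Fin m → ℕ, IsSum H n ψ φ

/-- The unitary permutation representation. -/
noncomputable def permRep {G : Type} [Group G] {X : Type} [Fintype X] (a : G →* Equiv.Perm X) :
    URep G where
  X := EuclideanSpace ℂ X
  hom :=
    { toFun := fun g => LinearIsometryEquiv.piLpCongrLeft 2 ℂ ℂ (a g)
      map_one' := by
        ext v x
        rw [map_one]
        rfl
      map_mul' := by
        intro g h
        ext v x
        rw [map_mul]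
        rfl }

/-- Negative answer to Q1: there are a finitely generated group `G` and a finite subgroup `H` such
that the monoid of restrictions to `H` of finite-dimensional unitary representations of `G` is
not finitely generated. -/
theorem result : ∃ (G : Type) (_ : Group G) (H : Subgroup G), Group.FG G ∧ Finite H ∧
    ∀ (m : ℕ) (ψ : Fin m → URep G), ¬ Generates H ψ := by
  refine ⟨LG, inferInstance, H, fg_LG, finite_H, ?_⟩
  intro m ψ hψ
  obtain ⟨N, hN, hcore⟩ := core (fun j =>
    ({ toFun := fun g => ((ψ j).hom g).toLinearEquiv.toLinearMap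
       map_one' := by rw [map_one]; rfl
       map_mul' := by
        intro g h
        rw [map_mul]
        rfl } : Representation ℂ LG (ψ j).X))
  have : NeZero N := ⟨hN⟩
  obtain ⟨n, E, hE, hbij⟩ := hψ (permRep (act N))
  let e : (permRep (act N)).X ≃ₗ[ℂ] ((j : Fin m) → Fin (n j) → (ψ j).X) :=
    LinearEquiv.ofBijective (LinearMap.pi fun j => LinearMap.pi fun k => E j k) hbij
  refine hcore n ((WithLp.linearEquiv 2 ℂ (XN N → ℂ)).symm.trans e) ?_
  intro h hh f j k
  exact hE j k h hh ((WithLp.linearEquiv 2 ℂ (XN N → ℂ)).symm f)

end Pool.Agent.Results.MP_af3a77_al.RepMonoidNotFG
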